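import Pool.Agent.Helper50.BL.Stmts
import Pool.Agent.Helper50.BL.Base

/-! Module GB: the drift function. -/

set_option autoImplicit false

namespace Pool.Agent.Helper50.BL

open Finset
open scoped Classical

theorem gb_sum (f : SignType → ℝ) : ∑ a, f a = f 0 + f 1 + f (-1) := by
  have h : (Finset.univ : Finset SignType) = {0, 1, -1} := by
    ext a
    rcases SignType.trichotomy a with h | h | h <;> simp [h]
  rw [h]
  rw [Finset.sum_insert (by decide), Finset.sum_insert (by decide), Finset.sum_singleton]
  ring

theorem st_GB : ST_GB := by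
  refine ⟨?_, ?_, ?_, ?_, ?_⟩
  · intro V y hy
    refine ⟨?_, ?_⟩
    · intro v a
      have h := abs_le.1 (hy v)
      unfold mw
      split_ifs <;> linarith [h.1, h.2]
    · intro v
      rw [gb_sum]
      have e1 : (1 : SignType) ≠ 0 := by decide
      have e2 : (-1 : SignType) ≠ 0 := by decide
      have e3 : (-1 : SignType) ≠ 1 := by decide
      simp only [mw, if_true, e1, e2, e3, if_false]
      ring
  · intro V y x w w'
    rw [gb_sum]
    have e1 : (1 : SignType) ≠ 0 := by decide
    have e2 : (-1 : SignType) ≠ 0 := by decide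
    have e3 : (-1 : SignType) ≠ 1 := by decide
    simp only [mw, inc, gg, if_true, e1, e2, e3, if_false, SignType.coe_zero, SignType.coe_one,
      SignType.coe_neg_one, abs_mul]
    norm_num
    ring
  · intro y w w' hy
    have h := abs_le.1 hy
    refine ⟨-((w : ℝ) - 2 * w') * y - |(w : ℝ) - 2 * w'| + (|(w : ℝ)| - 2 * |(w' : ℝ)|) / 8, ?_⟩
    intro a
    have h1 : |(w : ℝ)| ≤ |(w : ℝ) - 2 * w'| + 2 * |(w' : ℝ)| := by
      have h2 : |(w : ℝ)| ≤ |(w : ℝ) - 2 * w'| + |2 * (w' : ℝ)| := by
        have h3 := abs_add_le ((w : ℝ) - 2 * w') (2 * (w' : ℝ))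
        have h4 : (w : ℝ) - 2 * w' + 2 * w' = w := by ring
        rw [h4] at h3
        exact h3
      rw [abs_mul] at h2
      norm_num at h2
      exact h2
    have h2 : 2 * |(w' : ℝ)| ≤ |(w : ℝ) - 2 * w'| + |(w : ℝ)| := by
      have h3 := abs_sub_abs_le_abs_sub (2 * (w' : ℝ)) (w : ℝ)
      rw [abs_mul, abs_sub_comm (2 * (w' : ℝ)) (w : ℝ)] at h3
      norm_num at h3
      linarith
    have h3 : |2 * (w' : ℝ)| = 2 * |(w' : ℝ)| := by
      rw [abs_mul]
      norm_num
    have h4 := le_abs_self ((w : ℝ) - 2 * w')
    have h5 := neg_abs_le ((w : ℝ) - 2 * w')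
    unfold inc gg
    rcases SignType.trichotomy a with ha | ha | ha
    · subst ha
      have e2 : (-1 : SignType) ≠ 0 := by decide
      simp only [e2, if_false, SignType.coe_neg_one]
      constructor
      · linarith
      · linarith
    · subst ha
      simp only [if_true, SignType.coe_zero, h3]
      constructor
      · linarith
      · linarith
    · subst ha
      have e1 : (1 : SignType) ≠ 0 := by decide
      simp only [e1, if_false, SignType.coe_one]
      constructor
      · linarith
      · linarith
  · intro y w w' a hy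
    have h := abs_le.1 hy
    have h4 := abs_sub_abs_le_abs_sub w w'
    have h5 := abs_sub_abs_le_abs_sub w' w
    rw [abs_sub_comm w' w] at h5
    unfold gg
    rcases SignType.trichotomy a with ha | ha | ha
    · subst ha
      have e2 : (-1 : SignType) ≠ 0 := by decide
      simp only [e2, if_false, SignType.coe_neg_one]
      have h6 : w * (-1 - y) - 0 - (w' * (-1 - y) - 0) = (w - w') * (-1 - y) := by ring
      rw [h6, abs_mul, mul_comm]
      refine mul_le_mul_of_nonneg_right ?_ (abs_nonneg _)
      rw [abs_le]
      constructor <;> linarith [h.1, h.2]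
    · subst ha
      simp only [if_true, SignType.coe_zero]
      have h6 : w * (0 - y) - |w| / 4 - (w' * (0 - y) - |w'| / 4) =
          (w - w') * (-y) + -((|w| - |w'|) / 4) := by ring
      rw [h6]
      refine (abs_add_le _ _).trans ?_
      rw [abs_neg, abs_mul, abs_neg]
      have h7 : |(|w| - |w'|) / 4| ≤ |w - w'| / 4 := by
        rw [abs_le]
        constructor <;> linarith
      have h8 : |w - w'| * |y| ≤ |w - w'| * (1 / 4) :=
        mul_le_mul_of_nonneg_left hy (abs_nonneg _)
      have h9 := abs_nonneg (w - w')
      linarith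
    · subst ha
      have e1 : (1 : SignType) ≠ 0 := by decide
      simp only [e1, if_false, SignType.coe_one]
      have h6 : w * (1 - y) - 0 - (w' * (1 - y) - 0) = (w - w') * (1 - y) := by ring
      rw [h6, abs_mul, mul_comm]
      refine mul_le_mul_of_nonneg_right ?_ (abs_nonneg _)
      rw [abs_le]
      constructor <;> linarith [h.1, h.2]
  · intro y w h a hh
    unfold gg
    rw [abs_mul, abs_of_nonneg hh]
    split_ifs <;> ring

end Pool.Agent.Helper50.BL
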