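import Pool.Agent.Helper50.BL.Stmts
import Pool.Agent.Helper50.BL.Base

/-! Module ITER: iteration of the rounds. -/

set_option autoImplicit false

namespace Pool.Agent.Helper50.BL

open Finset
open scoped Classical

theorem iter_triv {V : Type} (X : Finset V) (χ : V → ℤ) (y : V → ℝ)
    (hχ : ∀ x, χ x = 1 ∨ χ x = -1) (hy : ∀ x, |y x| ≤ 1 / 4) :
    |∑ x ∈ X, ((χ x : ℝ) - y x)| ≤ 5 / 4 * (#X : ℝ) := by
  calc |∑ x ∈ X, ((χ x : ℝ) - y x)| ≤ ∑ x ∈ X, |(χ x : ℝ) - y x| :=
        Finset.abs_sum_le_sum_abs _ _
    _ ≤ ∑ x ∈ X, (5 / 4 : ℝ) := by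
        refine Finset.sum_le_sum (fun x _ => ?_)
        have h1 := abs_le.1 (hy x)
        rcases hχ x with h | h
        · rw [h]
          push_cast
          rw [abs_le]
          constructor <;> linarith [h1.1, h1.2]
        · rw [h]
          push_cast
          rw [abs_le]
          constructor <;> linarith [h1.1, h1.2]
    _ = 5 / 4 * (#X : ℝ) := by
        rw [Finset.sum_const, nsmul_eq_mul]
        ring

theorem st_ITER (hINV : ST_INV) : ST_ITER := by
  intro V J _ _ _ _ S t dd Z0 δ η ta Psi hδ hδ1 hη hη4 hcon hZd hZ1 hround hsmall hbig hdeg hovl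
  have key : ∀ n : ℕ, ∀ U : Finset V, #U ≤ n → ∀ y : V → ℝ, (∀ x, |y x| ≤ 1 / 4) →
      Ovl (fun j => S j ∩ U) dd δ → ∃ χ : V → ℤ, (∀ x, χ x = 1 ∨ χ x = -1) ∧
        ∀ j, |∑ x ∈ S j ∩ U, ((χ x : ℝ) - y x)| ≤ Psi (#(S j ∩ U)) := by
    intro n
    induction n with
    | zero =>
      intro U hU y hy _
      refine ⟨fun _ => 1, fun _ => Or.inl rfl, fun j => ?_⟩
      have h1 : #(S j ∩ U) ≤ #U := Finset.card_le_card Finset.inter_subset_right
      exact (iter_triv (S j ∩ U) (fun _ => 1) y (fun _ => Or.inl rfl) hy).trans
        (hsmall _ (by omega))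
    | succ n ih =>
      intro U hU y hy hov
      by_cases hall : ∀ j, #(S j ∩ U) < Z0
      · refine ⟨fun _ => 1, fun _ => Or.inl rfl, fun j => ?_⟩
        exact (iter_triv (S j ∩ U) (fun _ => 1) y (fun _ => Or.inl rfl) hy).trans
          (hsmall _ (hall j))
      · push Not at hall
        obtain ⟨j0, hj0⟩ := hall
        have hdeg' : Deg (fun j => S j ∩ U) t := by
          intro x
          refine le_trans (Finset.card_le_card ?_) (hdeg x)
          intro j hj
          simp only [Finset.mem_filter, Finset.mem_univ, true_and, Finset.mem_inter] at hj ⊢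
          exact hj.1
        obtain ⟨ξ, y', hy', hy0, hbal, hst, hst2⟩ := hround (fun j => S j ∩ U) y hy hdeg' hov
        have hstay : ∀ j, stay ξ (S j ∩ U) = S j ∩ U.filter (fun x => ξ x = 0) := by
          intro j
          ext x
          simp only [stay, Finset.mem_filter, Finset.mem_inter]
          tauto
        have hov' : Ovl (fun j => S j ∩ U.filter (fun x => ξ x = 0)) dd δ := by
          have h1 := hINV V J (fun j => S j ∩ U) ξ dd Z0 δ η hδ hδ1 hη hη4 hcon hZd hov hst hst2
          have h2 : (fun j => stay ξ (S j ∩ U)) =
              (fun j => S j ∩ U.filter (fun x => ξ x = 0)) := funext hstay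
          rw [h2] at h1
          exact h1
        have hsz : ∀ j, Z0 ≤ #(S j ∩ U) →
            ((#(S j ∩ U.filter (fun x => ξ x = 0)) : ℕ) : ℝ) ≤ 3 / 4 * (#(S j ∩ U) : ℝ) := by
          intro j hj
          have h1 := (abs_le.1 (hst j hj)).2
          rw [hstay j] at h1
          have h2 : (0 : ℝ) ≤ (#(S j ∩ U) : ℝ) := Nat.cast_nonneg _
          nlinarith
        have hlt : #(U.filter (fun x => ξ x = 0)) < #U := by
          refine Finset.card_lt_card ?_
          rw [Finset.ssubset_iff_of_subset (Finset.filter_subset _ _)]
          by_contra hcon2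
          push Not at hcon2
          have h1 : S j0 ∩ U.filter (fun x => ξ x = 0) = S j0 ∩ U := by
            ext x
            simp only [Finset.mem_inter]
            constructor
            · rintro ⟨h1, h2⟩
              exact ⟨h1, (Finset.mem_filter.1 h2).1⟩
            · rintro ⟨h1, h2⟩
              exact ⟨h1, hcon2 x h2⟩
          have h2 := hsz j0 hj0
          rw [h1] at h2
          have h3 : (1 : ℝ) ≤ (#(S j0 ∩ U) : ℝ) := by
            exact_mod_cast hZ1.trans hj0
          linarith
        obtain ⟨χ', hχ', hch'⟩ := ih (U.filter (fun x => ξ x = 0)) (by omega) y' hy' hov'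
        refine ⟨fun x => if ξ x = 0 then χ' x else ((ξ x : SignType) : ℤ), ?_, ?_⟩
        · intro x
          by_cases hx : ξ x = 0
          · simp only [hx, if_true]
            exact hχ' x
          · simp only [hx, if_false]
            rcases SignType.trichotomy (ξ x) with h | h | h
            · right
              rw [h]
              simp
            · exact absurd h hx
            · left
              rw [h]
              simp
        · intro j
          by_cases hj : Z0 ≤ #(S j ∩ U)
          · have h1 : ∑ x ∈ S j ∩ U, (((if ξ x = 0 then χ' x else ((ξ x : SignType) : ℤ) : ℤ) : ℝ)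
                - y x) = ∑ x ∈ S j ∩ U.filter (fun x => ξ x = 0), ((χ' x : ℝ) - y' x) +
                ∑ x ∈ S j ∩ U, ((ξ x : ℝ) + y' x - y x) := by
              rw [← hstay j]
              unfold stay
              rw [Finset.sum_filter, ← Finset.sum_add_distrib]
              refine Finset.sum_congr rfl (fun x _ => ?_)
              by_cases hx : ξ x = 0
              · simp only [hx, if_true, SignType.coe_zero]
                ring
              · simp only [hx, if_false, hy0 x hx]
                have h2 : (((ξ x : SignType) : ℤ) : ℝ) = ((ξ x : SignType) : ℝ) := by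
                  rcases SignType.trichotomy (ξ x) with h | h | h <;> rw [h] <;> simp
                rw [h2]
                ring
            rw [h1]
            calc _ ≤ |∑ x ∈ S j ∩ U.filter (fun x => ξ x = 0), ((χ' x : ℝ) - y' x)| +
                  |∑ x ∈ S j ∩ U, ((ξ x : ℝ) + y' x - y x)| := abs_add_le _ _
              _ ≤ Psi (#(S j ∩ U.filter (fun x => ξ x = 0))) + ta (#(S j ∩ U)) :=
                  add_le_add (hch' j) (hbal j)
              _ = ta (#(S j ∩ U)) + Psi (#(S j ∩ U.filter (fun x => ξ x = 0))) := add_comm _ _
              _ ≤ Psi (#(S j ∩ U)) := hbig _ _ hj (hsz j hj)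
          · refine (iter_triv (S j ∩ U) _ y ?_ hy).trans (hsmall _ (by omega))
            intro x
            by_cases hx : ξ x = 0
            · simp only [hx, if_true]
              exact hχ' x
            · simp only [hx, if_false]
              rcases SignType.trichotomy (ξ x) with h | h | h
              · right
                rw [h]
                simp
              · exact absurd h hx
              · left
                rw [h]
                simp
  obtain ⟨χ, h1, h2⟩ := key (#(Finset.univ : Finset V)) Finset.univ le_rfl (fun _ => 0)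
    (fun x => by norm_num) (by
      have h : (fun j => S j ∩ (Finset.univ : Finset V)) = S := funext (fun j => Finset.inter_univ _)
      rw [h]
      exact hovl)
  refine ⟨χ, h1, fun j => ?_⟩
  have h3 := h2 j
  rw [Finset.inter_univ] at h3
  simp only [sub_zero] at h3
  push_cast
  exact h3

end Pool.Agent.Helper50.BL
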