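import Pool.Agent.Helper50.BL.Stmts
import Pool.Agent.Helper50.BL.Base

/-! Module LPD: LP duality for the final stage. -/

set_option autoImplicit false

namespace Pool.Agent.Helper50.BL

open Finset
open scoped Classical

/-- the linear map `(y', e) ↦ (∑_{S j} y' + e j)_j` -/
noncomputable def lpd_L {V J : Type} [Fintype V] [Fintype J] (S : J → Finset V) :
    ((V → ℝ) × (J → ℝ)) →ₗ[ℝ] (J → ℝ) where
  toFun := fun p j => ∑ x ∈ S j, p.1 x + p.2 j
  map_add' := by
    intro p q
    funext j
    simp only [Prod.fst_add, Prod.snd_add, Pi.add_apply, Finset.sum_add_distrib]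
    ring
  map_smul' := by
    intro c p
    funext j
    simp only [Prod.smul_fst, Prod.smul_snd, Pi.smul_apply, smul_eq_mul, RingHom.id_apply,
      mul_add, Finset.mul_sum]

theorem lpd_exch {V J : Type} [Fintype V] [DecidableEq V] [Fintype J] (S : J → Finset V)
    (lam : J → ℝ) (g : V → ℝ) :
    ∑ j, lam j * ∑ x ∈ S j, g x = ∑ x, fld S lam univ x * g x := by
  have h1 : ∀ j, lam j * ∑ x ∈ S j, g x = ∑ x, if x ∈ S j then lam j * g x else 0 := by
    intro j
    rw [Finset.mul_sum, ← Finset.sum_filter]
    refine Finset.sum_congr ?_ (fun _ _ => rfl)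
    ext x
    simp
  rw [Finset.sum_congr rfl (fun j _ => h1 j), Finset.sum_comm]
  refine Finset.sum_congr rfl (fun x _ => ?_)
  unfold fld
  rw [← Finset.sum_filter, Finset.sum_mul]

theorem st_LPD : ST_LPD := by
  intro V J _ _ _ _ S y ξ τ hτ h
  let b : J → ℝ := fun j => ∑ x ∈ S j, ((ξ x : ℝ) - y x)
  let P : Set ((V → ℝ) × (J → ℝ)) :=
    (Set.pi Set.univ (fun x => if ξ x = 0 then Set.Icc (-(1 / 4) : ℝ) (1 / 4) else {0})) ×ˢ
      (Set.pi Set.univ (fun j => Set.Icc (-(τ j)) (τ j)))
  have hPc : IsCompact P := by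
    refine IsCompact.prod (isCompact_univ_pi (fun x => ?_))
      (isCompact_univ_pi (fun j => isCompact_Icc))
    by_cases hx : ξ x = 0
    · simp only [hx, if_true]
      exact isCompact_Icc
    · simp only [hx, if_false]
      exact isCompact_singleton
  have hPv : Convex ℝ P := by
    refine Convex.prod (convex_pi (fun x _ => ?_)) (convex_pi (fun j _ => convex_Icc _ _))
    by_cases hx : ξ x = 0
    · simp only [hx, if_true]
      exact convex_Icc _ _
    · simp only [hx, if_false]
      exact convex_singleton _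
  have hLc : Continuous (lpd_L S) := by
    refine continuous_pi (fun j => ?_)
    show Continuous (fun p : (V → ℝ) × (J → ℝ) => ∑ x ∈ S j, p.1 x + p.2 j)
    fun_prop
  have hKv : Convex ℝ ((lpd_L S) '' P) := hPv.linear_image (lpd_L S)
  have hKc : IsClosed ((lpd_L S) '' P) := (hPc.image hLc).isClosed
  by_cases hb : (-b) ∈ (lpd_L S) '' P
  · obtain ⟨⟨y', e⟩, hp, he⟩ := hb
    obtain ⟨hp1, hp2⟩ := hp
    refine ⟨y', ?_, ?_, ?_⟩
    · intro x
      have h1 := hp1 x (Set.mem_univ x)
      by_cases hx : ξ x = 0
      · simp only [hx, if_true] at h1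
        exact abs_le.2 h1
      · simp only [hx, if_false, Set.mem_singleton_iff] at h1
        rw [h1]
        norm_num
    · intro x hx
      have h1 := hp1 x (Set.mem_univ x)
      simp only [hx, if_false, Set.mem_singleton_iff] at h1
      exact h1
    · intro j
      have h1 : ∑ x ∈ S j, y' x + e j = -b j := congrFun he j
      have h2 : ∑ x ∈ S j, ((ξ x : ℝ) + y' x - y x) = b j + ∑ x ∈ S j, y' x := by
        show _ = ∑ x ∈ S j, ((ξ x : ℝ) - y x) + ∑ x ∈ S j, y' x
        rw [← Finset.sum_add_distrib]
        exact Finset.sum_congr rfl (fun x _ => by ring)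
      have h3 : ∑ x ∈ S j, ((ξ x : ℝ) + y' x - y x) = -e j := by
        rw [h2]
        linarith
      rw [h3, abs_neg]
      exact abs_le.2 (hp2 j (Set.mem_univ j))
  · exfalso
    obtain ⟨f, u, hfu, huf⟩ := geometric_hahn_banach_point_closed hKv hKc hb
    let lam : J → ℝ := fun j => f (Pi.single j 1)
    have hf : ∀ k : J → ℝ, f k = ∑ j, lam j * k j := by
      intro k
      have hk : k = ∑ j, k j • (Pi.single j (1 : ℝ) : J → ℝ) := by
        funext i
        simp [Finset.sum_apply, Pi.single_apply]
      calc f k = f (∑ j, k j • (Pi.single j (1 : ℝ) : J → ℝ)) := by rw [← hk]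
        _ = ∑ j, lam j * k j := by
          rw [map_sum]
          refine Finset.sum_congr rfl (fun j _ => ?_)
          rw [map_smul, smul_eq_mul, mul_comm]
    let w : V → ℝ := fld S lam univ
    let y' : V → ℝ := fun x => if ξ x = 0 then -(1 / 4) * (SignType.sign (w x) : ℝ) else 0
    let e : J → ℝ := fun j => -(τ j) * (SignType.sign (lam j) : ℝ)
    have hsg : ∀ z : ℝ, |((SignType.sign z : SignType) : ℝ)| ≤ 1 := by
      intro z
      rcases lt_trichotomy z 0 with hz | hz | hz
      · simp [sign_neg hz]
      · simp [hz]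
      · simp [sign_pos hz]
    have hmem : (y', e) ∈ P := by
      refine ⟨?_, ?_⟩
      · intro x _
        by_cases hx : ξ x = 0
        · simp only [y', hx, if_true]
          have := abs_le.1 (hsg (w x))
          constructor <;> linarith [this.1, this.2]
        · simp only [y', hx, if_false, Set.mem_singleton_iff]
      · intro j _
        have h1 := abs_le.1 (hsg (lam j))
        have h2 := hτ j
        show -(τ j) ≤ -(τ j) * (SignType.sign (lam j) : ℝ) ∧
          -(τ j) * (SignType.sign (lam j) : ℝ) ≤ τ j
        constructor <;> nlinarith [h1.1, h1.2]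
    have h1 : f (-b) < f (lpd_L S (y', e)) := hfu.trans (huf _ ⟨_, hmem, rfl⟩)
    have h2 : f (-b) = -∑ x, w x * ((ξ x : ℝ) - y x) := by
      rw [map_neg, hf, ← lpd_exch S lam (fun x => (ξ x : ℝ) - y x)]
    have h3 : f (lpd_L S (y', e)) = ∑ x, w x * y' x + ∑ j, lam j * e j := by
      rw [hf, ← lpd_exch S lam y', ← Finset.sum_add_distrib]
      refine Finset.sum_congr rfl (fun j _ => ?_)
      show lam j * (∑ x ∈ S j, y' x + e j) = _
      ring
    have h4 : ∑ j, lam j * e j = -∑ j, τ j * |lam j| := by
      rw [← Finset.sum_neg_distrib]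
      refine Finset.sum_congr rfl (fun j _ => ?_)
      show lam j * (-(τ j) * (SignType.sign (lam j) : ℝ)) = _
      have h5 : lam j * (SignType.sign (lam j) : ℝ) = |lam j| := by
        rw [mul_comm]
        exact sign_mul_self (lam j)
      calc lam j * (-(τ j) * (SignType.sign (lam j) : ℝ))
          = -(τ j * (lam j * (SignType.sign (lam j) : ℝ))) := by ring
        _ = _ := by rw [h5]
    have h5 : ∑ x, w x * ((ξ x : ℝ) - y x) + ∑ x, w x * y' x = Gs y ξ w := by
      unfold Gs
      rw [← Finset.sum_add_distrib]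
      refine Finset.sum_congr rfl (fun x _ => ?_)
      unfold gg
      by_cases hx : ξ x = 0
      · simp only [y', hx, if_true]
        have h6 : w x * (SignType.sign (w x) : ℝ) = |w x| := by
          rw [mul_comm]
          exact sign_mul_self (w x)
        have h7 : w x * (-(1 / 4) * (SignType.sign (w x) : ℝ)) =
            -(1 / 4) * (w x * (SignType.sign (w x) : ℝ)) := by ring
        rw [h7, h6]
        ring
      · simp only [y', hx, if_false]
        ring
    have h6 := h lam
    have h7 : Gs y ξ w ≤ ∑ j, τ j * |lam j| := h6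
    linarith

end Pool.Agent.Helper50.BL
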